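import Pool.Agent.H629.TA.Stm

set_option autoImplicit false

/-!
# Project TA (helper629): one draw compared with a Poisson variable
-/

open Finset MeasureTheory ProbabilityTheory

namespace Pool.Agent.H658.TA.SW

open Pool.Agent.H629.TA

theorem lip_nat {g : ℝ → ℝ} (hg : Lip g) (n : ℕ) :
    |g n - g 0 - n * (g 1 - g 0)| ≤ 2 * ((n : ℝ) * ((n : ℝ) - 1)) := by
  rcases n with _ | _ | n
  · rw [Nat.cast_zero, sub_self, zero_mul, sub_zero, abs_zero, zero_mul, mul_zero]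
  · rw [Nat.zero_add, Nat.cast_one, one_mul, sub_self, abs_zero, sub_self, one_mul, mul_zero]
  · have h1 : |g ((n + 1 + 1 : ℕ) : ℝ) - g 0| ≤ ((n + 1 + 1 : ℕ) : ℝ) := by
      have := hg ((n + 1 + 1 : ℕ) : ℝ) 0
      rwa [sub_zero, Nat.abs_cast] at this
    have h2 : |g 1 - g 0| ≤ 1 := by
      have := hg 1 0
      rwa [sub_zero, abs_one] at this
    have h3 : |((n + 1 + 1 : ℕ) : ℝ) * (g 1 - g 0)| ≤ ((n + 1 + 1 : ℕ) : ℝ) := by
      rw [abs_mul, Nat.abs_cast]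
      calc ((n + 1 + 1 : ℕ) : ℝ) * |g 1 - g 0| ≤ ((n + 1 + 1 : ℕ) : ℝ) * 1 :=
            mul_le_mul_of_nonneg_left h2 (Nat.cast_nonneg _)
        _ = _ := mul_one _
    have h4 := abs_sub (g ((n + 1 + 1 : ℕ) : ℝ) - g 0) (((n + 1 + 1 : ℕ) : ℝ) * (g 1 - g 0))
    have h5 : (0 : ℝ) ≤ n := Nat.cast_nonneg n
    push_cast at h1 h3 h4 ⊢
    nlinarith

theorem t_SW : S_DR → S_PO → S_SW := by
  intro hDR hPO m s p hp hsum ξ g lam hg hlam
  obtain ⟨r1, r2, r3, r4, -, r6⟩ := hDR m s p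
  obtain ⟨-, -, -, hP⟩ := hPO g hg
  have h2 : |g 1 - g 0| ≤ 1 := by
    have := hg 1 0
    rwa [sub_zero, abs_one] at this
  set E : ℝ := draw m s p (fun j => (ξ j : ℝ)) with hEdef
  set D : (Fin m → ℕ) → ℝ := fun j => g (ξ j) - g 0 - (ξ j : ℝ) * (g 1 - g 0) with hD
  have e1 : draw m s p (fun j => g (ξ j)) = (g 0 + (g 1 - g 0) * E) + draw m s p D := by
    have a1 := r2 (fun j => g 0 + (g 1 - g 0) * (ξ j : ℝ)) D
    have a2 := r2 (fun _ => g 0) (fun j => (g 1 - g 0) * (ξ j : ℝ))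
    have a3 := r3 (g 1 - g 0) (fun j => (ξ j : ℝ))
    have a4 := r1 (g 0) hsum
    have a5 : (fun j : Fin m → ℕ => g (ξ j)) =
        fun j => (g 0 + (g 1 - g 0) * (ξ j : ℝ)) + D j := by
      funext j
      rw [hD]
      ring
    rw [a5]
    rw [a2, a3, a4] at a1
    exact a1
  have e2 : |draw m s p D| ≤ 2 * draw m s p (fun j => (ξ j : ℝ) * ((ξ j : ℝ) - 1)) := by
    refine (r6 D hp).trans ?_
    rw [← r3 2 (fun j => (ξ j : ℝ) * ((ξ j : ℝ) - 1))]
    exact r4 _ _ hp (fun j _ => lip_nat hg (ξ j))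
  have e3 := hP lam hlam
  have e4 : |(g 1 - g 0) * (E - lam)| ≤ |E - lam| := by
    rw [abs_mul]
    calc |g 1 - g 0| * |E - lam| ≤ 1 * |E - lam| :=
          mul_le_mul_of_nonneg_right h2 (abs_nonneg _)
      _ = _ := one_mul _
  have e5 : draw m s p (fun j => g (ξ j)) - Po lam g =
      (g 1 - g 0) * (E - lam) + draw m s p D - (Po lam g - g 0 - lam * (g 1 - g 0)) := by
    rw [e1]
    ring
  rw [e5]
  have e6 := abs_sub ((g 1 - g 0) * (E - lam) + draw m s p D)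
    (Po lam g - g 0 - lam * (g 1 - g 0))
  have e7 := abs_add_le ((g 1 - g 0) * (E - lam)) (draw m s p D)
  linarith

end Pool.Agent.H658.TA.SW
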